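import Pool.Agent.H10.AllPowers

/-!
# Powers of the Riemann kernel other than `1` and `2`

For every real `α > 0` with `α ≠ 1` and `α ≠ 2` the entire function
`F_α(z) = ∫_0^∞ Φ(t)^α cos(zt) dt` has infinitely many non-real zeros.
-/

namespace Pool.Agent.Results.MP_c1ac71_an.AllPowersExceptOneTwo

open Pool.Agent.H10

theorem result (α : ℝ) (hα : 0 < α) (h1 : α ≠ 1) (h2 : α ≠ 2) :
    {z : ℂ | z.im ≠ 0 ∧ cosTransform α z = 0}.Infinite :=
  infinite_nonreal_zeros hα h1 h2

end Pool.Agent.Results.MP_c1ac71_an.AllPowersExceptOneTwo
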