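import Pool.Agent.H10.AllPowers
import Pool.Agent.H10.K2Zero
import Pool.Agent.H10.XiRH

/-!
# The powers of the Riemann kernel whose cosine transform has a non-real zero

For every real `α > 0`, the entire function `F_α(z) = ∫_0^∞ Φ(t)^α cos(zt) dt` has a non-real
zero, except possibly for `α = 1`; for `α = 1` it has one if and only if the Riemann hypothesis
fails.
-/

namespace Pool.Agent.Results.MP_c1ac71_an.DeterminationOfA

open Pool.Agent.H10

theorem result (α : ℝ) (hα : 0 < α) :
    (∃ z : ℂ, z.im ≠ 0 ∧ cosTransform α z = 0) ↔ (α = 1 → ¬ RiemannHypothesis) := by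
  by_cases h1 : α = 1
  · rw [h1, exists_nonreal_zero_one_iff]
    simp
  · refine ⟨fun _ h => absurd h h1, fun _ => ?_⟩
    by_cases h2 : α = 2
    · rw [h2]
      exact exists_nonreal_zero_two
    · obtain ⟨z, hz⟩ := (infinite_nonreal_zeros hα h1 h2).nonempty
      exact ⟨z, hz⟩

end Pool.Agent.Results.MP_c1ac71_an.DeterminationOfA
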