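import Pool.Agent.H10.Transform

/-!
# Non-integer powers of the Riemann kernel

For every non-integer `α > 0` the entire function `F_α(z) = ∫_0^∞ Φ(t)^α cos(zt) dt` has infinitely
many non-real zeros and only finitely many real zeros.
-/

namespace Pool.Agent.Results.MP_c1ac71_an.NonIntegerPowers

open Pool.Agent.H10 Complex Filter Topology Set

theorem result (α : ℝ) (hα : 0 < α) (hint : ∀ n : ℕ, α ≠ n) :
    {z : ℂ | cosTransform α z = 0 ∧ z.im ≠ 0}.Infinite ∧
    {z : ℂ | cosTransform α z = 0 ∧ z.im = 0}.Finite := by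
  have hs : Real.sin (Real.pi * α) ≠ 0 := by
    intro h
    rw [Real.sin_eq_zero_iff] at h
    obtain ⟨n, hn⟩ := h
    have h1 : (n : ℝ) = α := by
      have hpi := Real.pi_ne_zero
      have : (n : ℝ) * Real.pi = α * Real.pi := by rw [hn]; ring
      exact mul_right_cancel₀ hpi this
    have h2 : (0 : ℤ) ≤ n := by
      have : (0 : ℝ) < n := by rw [h1]; exact hα
      exact_mod_cast this.le
    obtain ⟨m, hm⟩ := Int.eq_ofNat_of_zero_le h2
    apply hint m
    rw [← h1, hm]
    rfl
  obtain ⟨X, hX, hXb⟩ := cosTransform_ne_zero_of_large hα hs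
  have hd := differentiable_cosTransform hα
  have hne : ∃ z, cosTransform α z ≠ 0 := ⟨X, hXb X le_rfl⟩
  have hfin : ({z | cosTransform α z = 0} ∩ Metric.closedBall (0 : ℂ) X).Finite := by
    by_contra hinf
    have hinf' : ({z | cosTransform α z = 0} ∩ Metric.closedBall (0 : ℂ) X).Infinite := hinf
    obtain ⟨w, _, hw⟩ := hinf'.exists_accPt_of_subset_isCompact (isCompact_closedBall (0 : ℂ) X)
      inter_subset_right
    have hfreq : ∃ᶠ z in 𝓝[≠] w, cosTransform α z = 0 := by
      rw [accPt_iff_frequently_nhdsNE] at hw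
      exact hw.mono (fun z hz => hz.1)
    have han : AnalyticOnNhd ℂ (cosTransform α) univ := fun z _ => hd.analyticAt z
    have h0 := han.eqOn_zero_of_preconnected_of_frequently_eq_zero isPreconnected_univ
      (mem_univ w) hfreq
    obtain ⟨z, hz⟩ := hne
    exact hz (h0 (mem_univ z))
  have hreal : {z : ℂ | cosTransform α z = 0 ∧ z.im = 0}.Finite := by
    refine hfin.subset ?_
    rintro z ⟨hz, him⟩
    refine ⟨hz, ?_⟩
    have hzr : z = (z.re : ℂ) := by
      apply Complex.ext <;> simp [him]
    rw [mem_closedBall_zero_iff, hzr, Complex.norm_real, Real.norm_eq_abs]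
    by_contra h
    push Not at h
    rcases le_total 0 z.re with h0 | h0
    · rw [abs_of_nonneg h0] at h
      exact hXb z.re h.le (by rw [← hzr]; exact hz)
    · rw [abs_of_nonpos h0] at h
      apply hXb (-z.re) h.le
      push_cast
      rw [cosTransform_neg, ← hzr]
      exact hz
  refine ⟨?_, hreal⟩
  intro hnonreal
  apply infinitely_many_zeros hα (hnonreal.toFinset ∪ hreal.toFinset)
  intro z hz
  rw [Finset.mem_union, Set.Finite.mem_toFinset, Set.Finite.mem_toFinset]
  by_cases him : z.im = 0
  · exact Or.inr ⟨hz, him⟩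
  · exact Or.inl ⟨hz, him⟩

end Pool.Agent.Results.MP_c1ac71_an.NonIntegerPowers
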